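import Pool.Agent.H556R2.Complete

set_option autoImplicit false

/-!
# The Borel complexity of the strictness of `P ⊆ RP ⊆ NP`

Relative to an oracle `A`, a subset of the set of all bit strings, the strictness of the two
inclusions depends on `A`. The theorem determines how complicated this dependence is: for
continuous reductions in the space of all oracles the set of the `A` with `P ≠ RP` is
`Σ⁰₃`-complete, and so is the set of the `A` for which both inclusions are strict. Moreover one
continuous reduction serves for all: every set of oracles between two extremes is `Σ⁰₃`-hard.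

The construction of the oracles is due to helper556 of an earlier round (`Pool.Agent.H556R2`).
-/

namespace Pool.Agent.Results.MP_b573ec_lc.BorelComplexity

open H556R2 TopologicalSpace

/-- (1) The set of the oracles with `P ≠ RP` and the set of the oracles with `P ≠ RP` and `RP ≠ NP`
are `Σ⁰₃`-complete. (2) Let `S` be a set of oracles which contains all oracles with `P ≠ ZPP`,
`RP ≠ NP` and `NP ⊄ BPP`, but no oracle with `P = RP = BPP = NP ∩ coNP` and `NP ⊄ BPP`. Every `Σ⁰₃`
subset `D` of a zero-dimensional second countable space is the preimage of `S` under a continuous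
map. -/
theorem result :
    (Sigma03Complete {A : Oracle | ClassP A ⊂ ClassRP A} ∧
      Sigma03Complete {A : Oracle | ClassP A ⊂ ClassRP A ∧ ClassRP A ⊂ ClassNP A}) ∧
    ∀ S : Set Oracle,
      (∀ A, ¬ ClassZPP A ⊆ ClassP A → ClassRP A ⊂ ClassNP A → ¬ ClassNP A ⊆ ClassBPP A → A ∈ S) →
      (∀ A ∈ S, ClassRP A ⊆ ClassP A → ClassBPP A ⊆ ClassP A →
        ClassNP A ∩ ClassCoNP A ⊆ ClassP A → ClassNP A ⊆ ClassBPP A) →
      ∀ (X : Type) [TopologicalSpace X] [SecondCountableTopology X],
        IsTopologicalBasis {s : Set X | IsClopen s} → ∀ D : Set X, IsSigma03 D →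
          ∃ f : X → Oracle, Continuous f ∧ f ⁻¹' S = D := by
  have hard : ∀ S : Set Oracle,
      (∀ A, ¬ ClassZPP A ⊆ ClassP A → ClassRP A ⊂ ClassNP A → ¬ ClassNP A ⊆ ClassBPP A → A ∈ S) →
      (∀ A ∈ S, ClassRP A ⊆ ClassP A → ClassBPP A ⊆ ClassP A →
        ClassNP A ∩ ClassCoNP A ⊆ ClassP A → ClassNP A ⊆ ClassBPP A) →
      ∀ (X : Type) [TopologicalSpace X] [SecondCountableTopology X],
        IsTopologicalBasis {s : Set X | IsClopen s} → ∀ D : Set X, IsSigma03 D →
          ∃ f : X → Oracle, Continuous f ∧ f ⁻¹' S = D := by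
    intro S h1 h2 X _ _ hX D hD
    obtain ⟨α, hα, h3, h4⟩ := exists_matrix hX hD
    refine ⟨fun x => OA (α x), continuous_OA hα, ?_⟩
    ext x
    simp only [Set.mem_preimage]
    constructor
    · intro h5
      by_contra hx
      have h6 := h4 x hx
      exact OA_NP_not_BPP _ (h2 _ h5 (OA_fin_RP h6) (OA_fin_BPP h6) (OA_fin_npc h6))
    · intro hx
      obtain ⟨i, hi⟩ := h3 x hx
      exact h1 _ (OA_inf_ZPP hi) ((ssubset_iff_not_subset (classRP_subset_classNP _)).2
        (OA_NP_not_RP _)) (OA_NP_not_BPP _)
  refine ⟨⟨⟨?_, hard _ ?_ ?_⟩, both_strict_complete⟩, hard⟩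
  · have h0 : {A : Oracle | ClassP A ⊂ ClassRP A} = {A | ¬ ClassRP A ⊆ ClassP A} := by
      ext A
      simp only [Set.mem_ofPred_eq]
      exact ssubset_iff_not_subset (classP_subset_classRP A)
    rw [h0]
    exact sigma_RP_P
  · intro A h1 _ _
    exact (ssubset_iff_not_subset (classP_subset_classRP A)).2 fun h => h1 fun L hL => h hL.1
  · intro A hA h1 _ _
    exact absurd h1 ((ssubset_iff_not_subset (classP_subset_classRP A)).1 hA)

end Pool.Agent.Results.MP_b573ec_lc.BorelComplexity
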