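import Pool.Agent.W900.RB.Fin
import Pool.Agent.W900.RB.ZFin
import Pool.Agent.W900.RB.Bpp
import Pool.Agent.W900.RB.Gap
import Pool.Agent.W900.CH.NELev

/-!
# How many strings of a random oracle have to be changed to get the other patterns of `P ⊆ RP ⊆ NP`?

For almost every oracle `O` the first inclusion is an equality and the second one is strict:
`P = RP ≠ NP` relative to `O`. Here the oracle `O` is changed by an adversary who knows it: for a
function `g`, the oracle `A` is obtained from `O` by changing, for all large `n`, at most `g n` of the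
strings of length at most `n` (`Close g O A`). For each of the other three patterns the theorem tells
exactly for which functions `g` it can be reached.

* `P ≠ RP ≠ NP`: if and only if `g` is not polynomially bounded.
* `P = RP = NP`, and also `P ≠ RP = NP`: if and only if `g n > 2 ^ (n ^ ε)` for some `ε > 0` and all
  large `n`.

The possible changes can be made for almost every (in the second case even for every) oracle `O`, and
below the threshold they are impossible for almost every `O`, however the changes depend on `O`.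

(Polynomially bounded means here that for some `c` and all large `n` there is `m ≥ n` with
`g m ≤ n ^ c`. If `g` is nondecreasing, this says that `g n ≤ n ^ c` for some `c` and all large `n`;
in general it is the right condition, since the number of changed strings of length at most `n` is
nondecreasing in `n`.)

The parts of the proof are theorems of the starting files `Pool/Agent/W900/RB` and
`Pool/Agent/W900/CH`, which had not been put together and handed in for `P`, `RP` and `NP`.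
-/

set_option autoImplicit false

namespace Pool.Agent.Results.MP_b573ec_lc.ChangedStrings

open Pool.Agent.NPC Pool.Agent.H620R2.Gauge Pool.Agent.W900.RB
open Pool.Agent.H628R3.RO (randomOracle)
open Pool.Agent.W900.CH (Close)
open MeasureTheory Filter

theorem rp_bpp {A : Oracle} {L : Set (List Bool)} (h : IsRP A L) : IsBPP A L := isBPP_of_isRP h

/-- a language in `NP` which is not in `coNP/poly` is not in `RP` -/
theorem not_rp {A : Oracle} {L : Set (List Bool)} (h : ¬ WithAdvice (IsNP A) Lᶜ) : ¬ IsRP A L :=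
  fun h1 => h (withAdvice_compl (isBPP_of_isRP h1))

/-- polynomially many changes -/
theorem pclose {g : ℕ → ℝ} {c : ℕ} (hc : ∀ᶠ n : ℕ in atTop, ∃ m ≥ n, g m ≤ (n : ℝ) ^ c)
    {O A : Oracle} (h : Close g O A) : PClose c O A := by
  obtain ⟨n₀, h0⟩ := eventually_atTop.1 h
  filter_upwards [hc, eventually_ge_atTop n₀] with n hn hn0
  obtain ⟨m, hm, hg⟩ := hn
  have h1 : (Pool.Agent.W900.CH.dist O A m : ℝ) ≤ g m := h0 m (hn0.trans hm)
  have h2 : Pool.Agent.W900.CH.dist O A n ≤ Pool.Agent.W900.CH.dist O A m :=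
    Pool.Agent.W900.CH.dist_mono O A hm
  have h3 : (Pool.Agent.W900.CH.dist O A m : ℝ) ≤ ((n ^ c : ℕ) : ℝ) := by
    push_cast
    exact h1.trans hg
  exact h2.trans (by exact_mod_cast h3)

theorem result (g : ℕ → ℝ) :
    -- `P = RP ≠ NP` persists under polynomially many changes
    ((∃ c : ℕ, ∀ᶠ n : ℕ in atTop, ∃ m ≥ n, g m ≤ (n : ℝ) ^ c) →
      ∀ᵐ O ∂randomOracle, ∀ A : Oracle, Close g O A →
        (∀ L, IsRP A L ↔ IsP A L) ∧ ∃ L, IsNP A L ∧ ¬ IsRP A L) ∧
    -- more changes can lead to `P ≠ RP ≠ NP`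
    ((¬ ∃ c : ℕ, ∀ᶠ n : ℕ in atTop, ∃ m ≥ n, g m ≤ (n : ℝ) ^ c) →
      ∀ᵐ O ∂randomOracle, ∃ A : Oracle, Close g O A ∧
        (∃ L, IsRP A L ∧ ¬ IsP A L) ∧ ∃ L, IsNP A L ∧ ¬ IsRP A L) ∧
    -- `RP ≠ NP` persists under subexponentially many changes
    ((∀ ε : ℝ, 0 < ε → ∃ᶠ n : ℕ in atTop, g n ≤ 2 ^ (n : ℝ) ^ ε) →
      ∀ᵐ O ∂randomOracle, ∀ A : Oracle, Close g O A → ∃ L, IsNP A L ∧ ¬ IsRP A L) ∧
    -- more changes can lead to `P = RP = NP` and to `P ≠ RP = NP`
    ((¬ ∀ ε : ℝ, 0 < ε → ∃ᶠ n : ℕ in atTop, g n ≤ 2 ^ (n : ℝ) ^ ε) →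
      ∀ O : Oracle,
        (∃ A : Oracle, Close g O A ∧ (∀ L, IsRP A L ↔ IsP A L) ∧ ∀ L, IsNP A L ↔ IsRP A L) ∧
        ∃ A : Oracle, Close g O A ∧ (∃ L, IsRP A L ∧ ¬ IsP A L) ∧ ∀ L, IsNP A L ↔ IsRP A L) := by
  refine ⟨fun hg => ?_, fun hg => ?_, fun hg => ?_, fun hg O => ⟨?_, ?_⟩⟩
  · have h1 := Pool.Agent.W900.CH.ae_coNP (low_of_poly hg)
    obtain ⟨c, hc⟩ := hg
    filter_upwards [ae_bpp, h1] with O h2 h3 A hA
    refine ⟨fun L => ⟨fun h => h2 A ⟨c, pclose hc hA⟩ L (rp_bpp h), isRP_of_isP⟩, ?_⟩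
    obtain ⟨L, h4, h5⟩ := h3 A hA
    exact ⟨L, h4, not_rp h5⟩
  · filter_upwards [exists_rp_np (super_of_not hg)] with O h1
    obtain ⟨A, hA, ⟨L, h2, h3⟩, L', h4, h5⟩ := h1
    refine ⟨A, hA, ⟨L, h2, fun h => h3 ?_⟩, L', h4, not_rp h5⟩
    exact isNP_of_isRP (isRP_compl_of_isZPP (isZPP_of_isP h))
  · filter_upwards [Pool.Agent.W900.CH.ae_coNP hg] with O h1 A hA
    obtain ⟨L, h4, h5⟩ := h1 A hA
    exact ⟨L, h4, not_rp h5⟩
  · obtain ⟨A, hA, h1⟩ := Pool.Agent.W900.CH.exists_close_PSPACE hg O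
    have h2 : ∀ L, IsNP A L → IsP A L := fun L h => isP_of_reduces (h1 L h.isPH.isPSPACE)
    exact ⟨A, hA, fun L => ⟨fun h => h2 L (isNP_of_isRP h), isRP_of_isP⟩,
      fun L => ⟨fun h => isRP_of_isP (h2 L h), isNP_of_isRP⟩⟩
  · obtain ⟨A, hA, h1, L, h2, h3⟩ := Pool.Agent.W900.CH.exists_close_ZPP hg O
    exact ⟨A, hA, ⟨L, isRP_of_isZPP h2, h3⟩,
      fun L => ⟨fun h => isRP_of_isZPP (h1 L (Or.inr h.isPH.isPSPACE)), isNP_of_isRP⟩⟩

end Pool.Agent.Results.MP_b573ec_lc.ChangedStrings
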