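import Pool.Agent.H556R2.SComplete

set_option autoImplicit false

/-!
# One-sided randomised linear time and deterministic time with a fixed exponent

If `P = RP` then every language which is decided with one-sided error in linear time is decided
deterministically in time `O(n ^ c)` for some `c`, which may depend on the language. The uniform
version asks for one exponent `c` for all these languages. Relative to an oracle `A` the uniform
version has exactly the Borel complexity `Σ⁰₄`, one level above `P = RP` itself (`Π⁰₃`). So has every
property of oracles between the two extremes below.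

The construction of the oracles is due to helper556 of an earlier round (`Pool.Agent.H556R2`).
-/

namespace Pool.Agent.Results.MP_b573ec_lc.FixedExponent

open H556R2 TopologicalSpace

/-- (1) The set of the oracles `A` such that, for some `c`, relative to `A` all languages in
`RTIME(n)` are in `DTIME(n ^ c)`, is `Σ⁰₄`-complete. (2) Let `S` be a set of oracles which contains
all oracles such that, for some `c`, all languages in `RTIME(n)` and all languages in
`NTIME(n) ∩ coNTIME(n)` are in `DTIME(n ^ c)`, and only oracles such that for some `c` all languages
in `ZPTIME(n)` are in `DTIME(n ^ c)`. Every `Σ⁰₄` subset `D` of a zero-dimensional second countable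
space is the preimage of `S` under a continuous map. -/
theorem result :
    Sigma04Complete {A : Oracle | ∃ c, ClassRTIME1 A ⊆ ClassDTIME c A} ∧
    ∀ S : Set Oracle,
      (∀ A c, ClassRTIME1 A ⊆ ClassDTIME c A →
        ClassNTIME1 A ∩ ClassCoNTIME1 A ⊆ ClassDTIME c A → A ∈ S) →
      (∀ A ∈ S, ∃ c, ClassZPTIME1 A ⊆ ClassDTIME c A) →
      ∀ (X : Type) [TopologicalSpace X] [SecondCountableTopology X],
        IsTopologicalBasis {s : Set X | IsClopen s} → ∀ D : Set X, IsSigma04 D →
          ∃ f : X → Oracle, Continuous f ∧ f ⁻¹' S = D := by
  classical
  refine ⟨fixed_exponent_complete, fun S h1 h2 => sigma04_hard ?_ ?_⟩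
  · intro α c0 hα
    refine h1 _ (2 * c0 + 4) (OS_linear_RTIME hα) fun L hL => ?_
    obtain ⟨⟨i, i'⟩, hi⟩ := (mem_NTIME1_fam _ _).1 hL
    apply OS_linear hα (e := (.npc, linSM i, linSM i')) (linSM_bd' i i')
    intro x
    exact ⟨decide (x ∈ L), by simp, hi x⟩
  · intro α hα hS
    obtain ⟨c, hc⟩ := h2 _ hS
    obtain ⟨i, hi⟩ := hα c
    exact OS_level hi hc

end Pool.Agent.Results.MP_b573ec_lc.FixedExponent
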