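import Pool.Agent.W901.RL.Laws

/-!
# `RP = NP` and games against the answers to many `NP` questions

Polynomial time is Mathlib's `Turing.TM2ComputableInPolyTime`; `InNP`, `NPHard` are those of
`Pool.Agent.NPC.Defs`, `InRP`, `InBPP` those of `Pool.Agent.W920.NL.DefsR`, the other notions those
of `Pool.Agent.W901.RL.DefsL`.

A game against strings of `m` bits has a price, and a payoff for every move and string; it is fair if
no move has a mean payoff against random strings larger than the price (and if prices, payoffs and
good moves against given strings can be computed in polynomial time). For every fair game, `RP = NP`
if and only if for some `NP`-hard set `A` a probabilistic polynomial-time algorithm, given a list of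
`m` questions about membership in `A`, has a mean payoff against the string of the answers of at
least `1 + 1 / m ^ c` times the price. So all ways to gain a little on the answers to many `NP`
questions, compared with coin tosses, are equivalent. Two examples are treated in a sharper form:

* predictions of some of the answers with the payoff `(right - wrong) ^ 2 / (number of predictions)`,
  whose mean is `1` for coin tosses (here `NP`-hardness is needed for lists of questions of length at
  most `m ^ ε` only);
* the parity of the answers to a nonempty set of questions of the algorithm's choice.

If `RP = NP` then all answers can be computed, with exponentially small error (`Solvable`).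

The theorem is `game_law` of the starting file `Pool/Agent/W901/RL/Laws.lean`, which had not been
handed in.
-/

set_option autoImplicit false

namespace Pool.Agent.Results.MP_b573ec_lc.GameLaw

open Pool.Agent.NPC Pool.Agent.W920.NL Pool.Agent.W901.RL

/-- **`NP ⊆ RP`, predictions in mean square, parities and fair games.** -/
theorem result (c : ℕ) (hc : 1 ≤ c) (ε : ℝ) (hε : 0 < ε) (G : Game) (hG : G.Fair) : List.TFAE
    [∀ L : Set (List Bool), InNP L → InRP L,
      ∀ L : Set (List Bool), InNP L → InBPP L,
      ∃ A : Set (List Bool), NPHard A ∧ MeanPredictable c ε A,
      ∃ A : Set (List Bool), NPHard A ∧ ∀ K : ℕ, ParityPredictable c K A,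
      ∃ A : Set (List Bool), NPHard A ∧ ∀ K : ℕ, Wins G c K A,
      ∀ A : Set (List Bool), InNP A → Solvable A] :=
  game_law hc hε hG

end Pool.Agent.Results.MP_b573ec_lc.GameLaw
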